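import Mathlib

/-!
# Localization forcing has a nontrivial complete subforcing which adds no Cohen reals

The subforcing is the random algebra. For a slalom `φ` the real `x φ` is the least point of the
compact set of the points of `[0, 1]` which do not belong to any of the small open sets coded by the
members of the sets `φ n` (the measure of the sets coded at `n` is at most `ε n`, where the sum of
the numbers `n * ε n` is less than `1`). If `φ` is generic for localization forcing, then `x φ`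
avoids all null sets of the ground model, because a null set is contained in the upper limit of a
sequence of small sets of the ground model, and the sequence of the codes is localized by `φ`.
(That a slalom localizing the ground model makes the union of the null sets of the ground model a
null set is due to Bartoszyński.)

The Boolean values `H B` of the statements that `x φ` belongs to `B`, for Borel sets `B`, form a
complete subalgebra of the regular open algebra of localization forcing. They are treated with the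
Baire category theorem in the space of all slaloms.
-/

set_option autoImplicit false

namespace Pool.Agent.Results.MP_339868_lc.RandomSubforcing

open Set Filter Topology MeasureTheory

/-! ## Forcing notions and regular open sets -/

section Forcing

variable {P : Type} [Preorder P]

/-- The complement in the regular open algebra: `Perp U` is the set of the conditions without
extensions in `U`. If `U` is the Boolean value of a statement, then `Perp U` is the Boolean value of
its negation. -/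
def Perp (U : Set P) : Set P := {p | ∀ q ≤ p, q ∉ U}

/-- `𝔹` is a complete Boolean subalgebra of the regular open algebra of `P`: its members are
regular open sets of conditions, and it is closed under complements and arbitrary suprema (the
supremum of `𝒜` is `Perp (Perp (⋃₀ 𝒜))`). -/
structure IsCompleteSubalgebra (𝔹 : Set (Set P)) : Prop where
  regularOpen : ∀ U ∈ 𝔹, Perp (Perp U) = U
  compl_mem : ∀ U ∈ 𝔹, Perp U ∈ 𝔹
  sSup_mem : ∀ 𝒜 ⊆ 𝔹, Perp (Perp (⋃₀ 𝒜)) ∈ 𝔹

/-- The subforcing `𝔹` is nontrivial: it is forced that `G ∩ 𝔹` is not in the ground model. For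
every subset `U` of `𝔹` (in the ground model), every condition has an extension which forces, for
some `b ∈ 𝔹`, that `b ∈ G` while `b ∉ U`, or that `b ∉ G` while `b ∈ U`. -/
def IsNontrivial (𝔹 : Set (Set P)) : Prop :=
  ∀ (U : Set (Set P)) (p : P), ∃ q ≤ p, ∃ b ∈ 𝔹, (q ∈ b ∧ b ∉ U) ∨ (q ∈ Perp b ∧ b ∈ U)

/-- Let `b 0, b 1, …` be the Boolean values of the statements `x 0 = 1`, `x 1 = 1`, … for a
name `x` of an element of Cantor space. The condition `r` forces that the finite sequence `t` is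
an initial segment of `x`. -/
def ForcesInitial (b : ℕ → Set P) (t : List Bool) (r : P) : Prop :=
  ∀ (i : ℕ) (h : i < t.length), if t[i] = true then r ∈ b i else r ∈ Perp (b i)

/-- `D` is a dense subset of the Cohen forcing `2^{<ω}`. -/
def DenseStrings (D : Set (List Bool)) : Prop := ∀ t : List Bool, ∃ u ∈ D, t <+: u

/-- The subforcing `𝔹` adds no Cohen reals over the ground model: for every `𝔹`-name `x` of an
element of Cantor space (given by the Boolean values `b n ∈ 𝔹` of `x n = 1`), every condition has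
an extension which forces that for some dense subset `D` of `2^{<ω}` in the ground model no initial
segment of `x` belongs to `D`. -/
def AddsNoCohenReal (𝔹 : Set (Set P)) : Prop :=
  ∀ b : ℕ → Set P, (∀ n, b n ∈ 𝔹) → ∀ p : P, ∃ q ≤ p, ∃ D : Set (List Bool),
    DenseStrings D ∧ ∀ t ∈ D, ∀ r ≤ q, ¬ ForcesInitial b t r

end Forcing

/-! ## Localization forcing -/

/-- The conditions of localization forcing: `s = (s(0), …, s(n-1))` with `s(i)` a finite subset of
`ω` with at most `i` elements, and `F` is a finite set of functions from `ω` to `ω` with at most `n`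
elements. -/
structure LOC where
  s : List (Finset ℕ)
  F : Finset (ℕ → ℕ)
  card_s : ∀ (i : ℕ) (h : i < s.length), (s[i]).card ≤ i
  card_F : F.card ≤ s.length

/-- The order of localization forcing: `(t, H) ≤ (s, F)` if `t` end-extends `s`, `F ⊆ H`, and
`f(i) ∈ t(i)` for all `f ∈ F` and all `i` with `|s| ≤ i < |t|`. -/
instance : Preorder LOC where
  le q p := p.s <+: q.s ∧ p.F ⊆ q.F ∧
    ∀ f ∈ p.F, ∀ (i : ℕ) (h : i < q.s.length), p.s.length ≤ i → f i ∈ q.s[i]
  le_refl p := ⟨List.prefix_rfl, Finset.Subset.refl _, fun f _ i h h' => absurd h (not_lt.2 h')⟩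
  le_trans r q p := by
    rintro ⟨h1, h2, h3⟩ ⟨h4, h5, h6⟩
    refine ⟨h4.trans h1, h5.trans h2, fun f hf i hi hpi => ?_⟩
    by_cases hq : i < q.s.length
    · have := h6 f hf i hq hpi
      rw [h1.getElem hq] at this
      exact this
    · exact h3 f (h5 hf) i hi (not_lt.1 hq)

theorem le_iff (q p : LOC) : q ≤ p ↔ p.s <+: q.s ∧ p.F ⊆ q.F ∧
    ∀ f ∈ p.F, ∀ (i : ℕ) (h : i < q.s.length), p.s.length ≤ i → f i ∈ q.s[i] := Iff.rfl

/-! ## The space of slaloms -/

/-- A slalom. -/
def Slalom : Type := {φ : ℕ → Finset ℕ // ∀ i, (φ i).card ≤ i}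

/-- The set of the slaloms satisfying the condition `p`. -/
def Nb (p : LOC) : Set Slalom :=
  {φ | (∀ (i : ℕ) (h : i < p.s.length), φ.1 i = p.s[i]) ∧
    ∀ f ∈ p.F, ∀ i, p.s.length ≤ i → f i ∈ φ.1 i}

instance : TopologicalSpace Slalom := TopologicalSpace.generateFrom (Set.range Nb)

theorem isOpen_Nb (p : LOC) : IsOpen (Nb p) :=
  TopologicalSpace.isOpen_generateFrom_of_mem ⟨p, rfl⟩

theorem Nb_mono {q p : LOC} (h : q ≤ p) : Nb q ⊆ Nb p := by
  rintro φ ⟨h1, h2⟩
  obtain ⟨h3, h4, h5⟩ := h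
  refine ⟨fun i hi => ?_, fun f hf i hi => ?_⟩
  · rw [h1 i (lt_of_lt_of_le hi h3.length_le), h3.getElem hi]
  · by_cases hq : i < q.s.length
    · rw [h1 i hq]
      exact h5 f hf i hq hi
    · exact h2 f (h4 hf) i (not_lt.1 hq)

/-- The restriction of a slalom to `m` with the finite set `F` of functions. -/
def res (φ : Slalom) (m : ℕ) (F : Finset (ℕ → ℕ)) (hF : F.card ≤ m) : LOC where
  s := List.ofFn (fun i : Fin m => φ.1 i)
  F := F
  card_s := by
    intro i h
    simp only [List.getElem_ofFn]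
    exact φ.2 i
  card_F := by simpa using hF

theorem mem_Nb_res (φ : Slalom) (m : ℕ) (F : Finset (ℕ → ℕ)) (hF : F.card ≤ m)
    (h : ∀ f ∈ F, ∀ i, m ≤ i → f i ∈ φ.1 i) : φ ∈ Nb (res φ m F hF) := by
  refine ⟨fun i hi => by simp [res], fun f hf i hi => h f hf i (by simpa [res] using hi)⟩

theorem res_le {φ : Slalom} {p : LOC} (hφ : φ ∈ Nb p) (m : ℕ) (hm : p.s.length ≤ m)
    (F : Finset (ℕ → ℕ)) (hF : F.card ≤ m) (hpF : p.F ⊆ F) : res φ m F hF ≤ p := by
  refine ⟨?_, hpF, fun f hf i hi hpi => ?_⟩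
  · rw [List.prefix_iff_getElem]
    refine ⟨by simpa [res] using hm, fun i hi => ?_⟩
    simp only [res, List.getElem_ofFn]
    exact (hφ.1 i hi).symm
  · simp only [res, List.getElem_ofFn]
    exact hφ.2 f hf i hpi

theorem Nb_nonempty (p : LOC) : (Nb p).Nonempty := by
  refine ⟨⟨fun i => if h : i < p.s.length then p.s[i] else p.F.image (fun f => f i), ?_⟩, ?_, ?_⟩
  · intro i
    dsimp only
    split_ifs with h
    · exact p.card_s i h
    · exact Finset.card_image_le.trans (p.card_F.trans (not_lt.1 h))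
  · intro i h
    simp [h]
  · intro f hf i hi
    simp only [not_lt.2 hi, dite_false]
    exact Finset.mem_image_of_mem _ hf

/-- The basic open sets below two conditions. -/
theorem exists_le_both {φ : Slalom} {p r : LOC} (hp : φ ∈ Nb p) (hr : φ ∈ Nb r) :
    ∃ q, q ≤ p ∧ q ≤ r ∧ φ ∈ Nb q := by
  classical
  let F := p.F ∪ r.F
  let m := max (max p.s.length r.s.length) F.card
  have hm1 : p.s.length ≤ m := le_trans (le_max_left _ _) (le_max_left _ _)
  have hm2 : r.s.length ≤ m := le_trans (le_max_right _ _) (le_max_left _ _)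
  refine ⟨res φ m F (le_max_right _ _), res_le hp m hm1 _ _ Finset.subset_union_left,
    res_le hr m hm2 _ _ Finset.subset_union_right, mem_Nb_res _ _ _ _ ?_⟩
  intro f hf i hi
  rcases Finset.mem_union.1 hf with h | h
  · exact hp.2 f h i (hm1.trans hi)
  · exact hr.2 f h i (hm2.trans hi)

theorem isTopologicalBasis_Nb : TopologicalSpace.IsTopologicalBasis (Set.range Nb) := by
  refine ⟨?_, ?_, rfl⟩
  · rintro _ ⟨p, rfl⟩ _ ⟨r, rfl⟩ φ ⟨hp, hr⟩
    obtain ⟨q, h1, h2, h3⟩ := exists_le_both hp hr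
    exact ⟨Nb q, ⟨q, rfl⟩, h3, subset_inter (Nb_mono h1) (Nb_mono h2)⟩
  · rw [sUnion_eq_univ_iff]
    intro φ
    exact ⟨_, ⟨res φ 0 ∅ (by simp), rfl⟩, mem_Nb_res _ _ _ _ (by simp)⟩

theorem exists_le_subset {φ : Slalom} {p : LOC} (hp : φ ∈ Nb p) {O : Set Slalom} (hO : IsOpen O)
    (hφ : φ ∈ O) : ∃ q ≤ p, φ ∈ Nb q ∧ Nb q ⊆ O := by
  obtain ⟨_, ⟨r, rfl⟩, hr, hrO⟩ := isTopologicalBasis_Nb.exists_subset_of_mem_open hφ hO
  obtain ⟨q, h1, h2, h3⟩ := exists_le_both hp hr
  exact ⟨q, h1, h3, (Nb_mono h2).trans hrO⟩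

theorem exists_le_length (p : LOC) (m : ℕ) : ∃ q ≤ p, m ≤ q.s.length := by
  obtain ⟨φ, hφ⟩ := Nb_nonempty p
  refine ⟨res φ (max p.s.length m) p.F (p.card_F.trans (le_max_left _ _)),
    res_le hφ _ (le_max_left _ _) _ _ (Finset.Subset.refl _), ?_⟩
  simp [res]

/-- The space of slaloms is a Baire space. -/
instance : BaireSpace Slalom := by
  constructor
  intro U hU hd
  rw [isTopologicalBasis_Nb.dense_iff]
  rintro _ ⟨p, rfl⟩ -
  -- the step of the construction
  have step : ∀ (n : ℕ) (r : LOC), ∃ q : LOC, q ≤ r ∧ n ≤ q.s.length ∧ Nb q ⊆ U n := by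
    intro n r
    obtain ⟨r', hr', hl⟩ := exists_le_length r n
    obtain ⟨φ, h1, h2⟩ := (hd n).inter_open_nonempty _ (isOpen_Nb r') (Nb_nonempty r')
    obtain ⟨q, hq, -, hqU⟩ := exists_le_subset h1 (hU n) h2
    exact ⟨q, hq.trans hr', hl.trans hq.1.length_le, hqU⟩
  choose g hg1 hg2 hg3 using step
  let c : ℕ → LOC := fun n => Nat.rec p (fun n r => g n r) n
  have hc0 : c 0 = p := rfl
  have hcs : ∀ n, c (n + 1) = g n (c n) := fun n => rfl
  have hmono : ∀ n, c (n + 1) ≤ c n := fun n => by rw [hcs]; exact hg1 _ _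
  have hanti : ∀ m n, m ≤ n → c n ≤ c m := fun m n h => (antitone_nat_of_succ_le hmono) h
  have hlen : ∀ n, n < (c (n + 2)).s.length := fun n => by rw [hcs]; exact hg2 (n + 1) _
  have hval : ∀ (i n : ℕ) (h : i < (c n).s.length),
      (c (i + 2)).s[i]'(hlen i) = (c n).s[i] := by
    intro i n h
    rcases le_total (i + 2) n with h' | h'
    · exact (hanti _ _ h').1.getElem (hlen i)
    · exact ((hanti _ _ h').1.getElem h).symm
  let φ : Slalom := ⟨fun i => (c (i + 2)).s[i]'(hlen i), fun i => (c (i + 2)).card_s i _⟩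
  have hφ : ∀ n, φ ∈ Nb (c n) := by
    intro n
    refine ⟨fun i h => hval i n h, fun f hf i hi => ?_⟩
    change f i ∈ (c (i + 2)).s[i]'(hlen i)
    rcases le_total n (i + 2) with h' | h'
    · exact (hanti _ _ h').2.2 f hf i (hlen i) hi
    · exact absurd (lt_of_lt_of_le (hlen i) (hanti _ _ h').1.length_le) (not_lt.2 hi)
  refine ⟨φ, hφ 0, ?_⟩
  rw [mem_iInter]
  intro n
  exact hg3 n (c n) (by rw [← hcs]; exact hφ (n + 1))

/-! ## The random real -/

/-- Lebesgue measure on the unit interval. -/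
noncomputable def μ : Measure ℝ := volume.restrict (Icc 0 1)

instance : IsFiniteMeasure μ := by unfold μ; infer_instance

theorem exists_coding : ∃ C : ℕ → Set ℝ, (IsSetAlgebra (range C) ∧ ∀ s ∈ range C, MeasurableSet s) ∧
    ∀ U : Set ℝ, IsOpen U → ∃ A : ℕ → Set ℝ, (∀ j, A j ∈ range C) ∧ U = ⋃ j, A j := by
  have hc := countable_generateSetAlgebra (TopologicalSpace.countable_countableBasis ℝ)
  have ha := isSetAlgebra_generateSetAlgebra (𝒜 := TopologicalSpace.countableBasis ℝ)
  obtain ⟨C, hC⟩ := hc.exists_eq_range ⟨∅, ha.empty_mem⟩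
  refine ⟨C, ⟨hC ▸ ha, fun s hs => ?_⟩, fun U hU => ?_⟩
  · rw [← hC] at hs
    have h1 : MeasurableSet[MeasurableSpace.generateFrom (TopologicalSpace.countableBasis ℝ)] s := by
      rw [← generateFrom_generateSetAlgebra_eq]
      exact MeasurableSpace.measurableSet_generateFrom hs
    rw [← (TopologicalSpace.isBasis_countableBasis ℝ).borel_eq_generateFrom] at h1
    rwa [BorelSpace.measurable_eq (α := ℝ)]
  obtain ⟨S, hS, hSU⟩ := (TopologicalSpace.isBasis_countableBasis ℝ).open_eq_sUnion hU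
  have hScount : S.Countable := (TopologicalSpace.countable_countableBasis ℝ).mono hS
  rcases S.eq_empty_or_nonempty with h | h
  · refine ⟨fun _ => ∅, fun _ => hC ▸ ha.empty_mem, ?_⟩
    rw [hSU, h]
    simp
  · obtain ⟨A, hA⟩ := hScount.exists_eq_range h
    refine ⟨A, fun j => ?_, by rw [hSU, hA, sUnion_range]⟩
    rw [← hC]
    exact self_subset_generateSetAlgebra (hS (hA ▸ mem_range_self j))

/-- An enumeration of a countable algebra of sets of reals. -/
noncomputable def C : ℕ → Set ℝ := exists_coding.choose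

theorem C_alg : IsSetAlgebra (range C) := exists_coding.choose_spec.1.1

theorem C_meas : ∀ s ∈ range C, MeasurableSet s := exists_coding.choose_spec.1.2

theorem C_open (U : Set ℝ) (hU : IsOpen U) :
    ∃ A : ℕ → Set ℝ, (∀ j, A j ∈ range C) ∧ U = ⋃ j, A j := exists_coding.choose_spec.2 U hU

theorem exists_eps : ∃ ε : ℕ → ENNReal, (∀ n, ε n ≠ 0 ∧ ε n ≠ ⊤) ∧ ∑' n, n * ε n < 1 := by
  obtain ⟨ε', h1, h2⟩ := ENNReal.exists_pos_sum_of_countable (ε := 1) one_ne_zero ℕ
  refine ⟨fun n => (ε' n : ENNReal) / (n + 1), fun n => ⟨?_, ?_⟩, ?_⟩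
  · rw [Ne, ENNReal.div_eq_zero_iff, not_or]
    exact ⟨by simpa using (h1 n).ne', by simp⟩
  · exact ENNReal.div_ne_top ENNReal.coe_ne_top (by simp)
  · refine lt_of_le_of_lt (ENNReal.tsum_le_tsum fun n => ?_) h2
    calc (n : ENNReal) * ((ε' n : ENNReal) / (n + 1))
        ≤ (n + 1) * ((ε' n : ENNReal) / (n + 1)) := by gcongr; exact le_self_add
      _ ≤ ε' n := ENNReal.mul_div_le

noncomputable def ε : ℕ → ENNReal := exists_eps.choose

theorem ε_ne (n : ℕ) : ε n ≠ 0 := (exists_eps.choose_spec.1 n).1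

theorem ε_top (n : ℕ) : ε n ≠ ⊤ := (exists_eps.choose_spec.1 n).2

theorem ε_sum : ∑' n, n * ε n < 1 := exists_eps.choose_spec.2

theorem exists_O (n c : ℕ) : ∃ O : Set ℝ, IsOpen O ∧ μ O ≤ ε n ∧ (μ (C c) < ε n → C c ⊆ O) := by
  by_cases h : μ (C c) < ε n
  · obtain ⟨O, h1, h2, h3⟩ := (C c).exists_isOpen_lt_of_lt _ h
    exact ⟨O, h2, h3.le, fun _ => h1⟩
  · exact ⟨∅, isOpen_empty, by simp, fun h' => absurd h' h⟩

/-- The open set of measure at most `ε n` coded by `c`. -/
noncomputable def O (n c : ℕ) : Set ℝ := (exists_O n c).choose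

theorem O_open (n c : ℕ) : IsOpen (O n c) := (exists_O n c).choose_spec.1

theorem O_le (n c : ℕ) : μ (O n c) ≤ ε n := (exists_O n c).choose_spec.2.1

theorem O_sub {n c : ℕ} (h : μ (C c) < ε n) : C c ⊆ O n c := (exists_O n c).choose_spec.2.2 h

/-- The open set of the points avoided by the random real. -/
def Bad (φ : Slalom) : Set ℝ := ⋃ n, ⋃ c ∈ φ.1 n, O n c

theorem Bad_open (φ : Slalom) : IsOpen (Bad φ) :=
  isOpen_iUnion fun n => isOpen_biUnion fun c _ => O_open n c

theorem Bad_lt (φ : Slalom) : μ (Bad φ) < 1 := by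
  refine lt_of_le_of_lt ?_ ε_sum
  refine (measure_iUnion_le _).trans (ENNReal.tsum_le_tsum fun n => ?_)
  refine (measure_biUnion_finset_le _ _).trans ?_
  refine (Finset.sum_le_sum fun c _ => O_le n c).trans ?_
  rw [Finset.sum_const, nsmul_eq_mul]
  gcongr
  exact_mod_cast φ.2 n

/-- The compact set of the points which are not avoided. -/
def K (φ : Slalom) : Set ℝ := Icc 0 1 \ Bad φ

theorem K_compact (φ : Slalom) : IsCompact (K φ) := isCompact_Icc.diff (Bad_open φ)

theorem K_nonempty (φ : Slalom) : (K φ).Nonempty := by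
  by_contra h
  rw [not_nonempty_iff_eq_empty, K, sdiff_eq_empty] at h
  have h1 : μ (Icc 0 1) = 1 := by simp [μ]
  have := measure_mono (μ := μ) h
  rw [h1] at this
  exact absurd (Bad_lt φ) (not_lt.2 this)

/-- The random real. -/
noncomputable def x (φ : Slalom) : ℝ := sInf (K φ)

theorem x_mem (φ : Slalom) : x φ ∈ K φ := (K_compact φ).sInf_mem (K_nonempty φ)

theorem x_le {φ : Slalom} {z : ℝ} (hz : z ∈ K φ) : x φ ≤ z := csInf_le (K_compact φ).bddBelow hz

instance : MeasurableSpace Slalom := borel _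

instance : BorelSpace Slalom := ⟨rfl⟩

theorem measurable_x : Measurable x := by
  refine measurable_of_Ioi fun a => IsOpen.measurableSet ?_
  rw [isOpen_iff_mem_nhds]
  intro φ hφ
  have hsub : Icc 0 a ⊆ ⋃ n, ⋃ c ∈ φ.1 n, O n c := by
    intro z hz
    by_contra hb
    have h1 := x_mem φ
    have : z ∈ K φ := ⟨⟨hz.1, (hz.2.trans (le_of_lt hφ)).trans h1.1.2⟩, hb⟩
    exact absurd (x_le this) (not_le.2 (lt_of_le_of_lt hz.2 hφ))
  obtain ⟨t, ht⟩ := isCompact_Icc.elim_finite_subcover _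
    (fun n => isOpen_biUnion fun c _ => O_open n c) hsub
  obtain ⟨m, hm⟩ : ∃ m, ∀ n ∈ t, n < m :=
    ⟨t.sup id + 1, fun n hn => Nat.lt_succ_of_le (Finset.le_sup (f := id) hn)⟩
  refine mem_of_superset ((isOpen_Nb (res φ m ∅ (by simp))).mem_nhds
    (mem_Nb_res _ _ _ _ (by simp))) fun ψ hψ => ?_
  have h1 := x_mem ψ
  rw [mem_preimage, mem_Ioi]
  by_contra hle
  have h2 := ht ⟨h1.1.1, not_lt.1 hle⟩
  apply h1.2
  obtain ⟨n, hn, hz⟩ := mem_iUnion₂.1 h2
  refine mem_iUnion.2 ⟨n, ?_⟩
  have : ψ.1 n = φ.1 n := by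
    rw [hψ.1 n (by simpa [res] using hm n hn)]
    simp [res]
  rw [this]
  exact hz

/-- Null sets are covered infinitely often by small sets of the countable algebra. -/
theorem exists_code {N : Set ℝ} (hN : μ N = 0) : ∃ f : ℕ → ℕ, (∀ n, μ (C (f n)) < ε n) ∧
    ∀ z ∈ N, ∀ k, ∃ n ≥ k, z ∈ C (f n) := by
  have hpos : ∀ n : ℕ, (ε n / 2) / (n + 1) ≠ 0 := by
    intro n
    rw [Ne, ENNReal.div_eq_zero_iff, not_or]
    refine ⟨?_, by simp⟩
    rw [ENNReal.div_eq_zero_iff, not_or]
    exact ⟨ε_ne n, by simp⟩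
  have hU : ∀ k : ℕ, ∃ U : Set ℝ, N ⊆ U ∧ IsOpen U ∧ μ U < (ε k / 2) / (k + 1) := fun k =>
    N.exists_isOpen_lt_of_lt _ (by rw [hN]; exact pos_iff_ne_zero.2 (hpos k))
  choose U hNU hUo hUlt using hU
  choose A hA hAU using fun k => C_open (U k) (hUo k)
  let W : ℕ → ℕ → Set ℝ := fun k j => ⋃ i ∈ Finset.range j, A k i
  have hWmem : ∀ k j, W k j ∈ range C := fun k j => C_alg.biUnion_mem _ fun i _ => hA k i
  have hWmono : ∀ k, Monotone (W k) := fun k i j hij =>
    biUnion_subset_biUnion_left fun a ha => Finset.mem_coe.2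
      (Finset.mem_range.2 (lt_of_lt_of_le (Finset.mem_range.1 (Finset.mem_coe.1 ha)) hij))
  have hWU : ∀ k, ⋃ j, W k j = U k := by
    intro k
    rw [hAU k]
    ext z
    simp only [W, mem_iUnion, Finset.mem_range]
    constructor
    · rintro ⟨j, i, -, hz⟩
      exact ⟨i, hz⟩
    · rintro ⟨i, hz⟩
      exact ⟨i + 1, i, Nat.lt_succ_self i, hz⟩
  have hev : ∀ n : ℕ, ∀ᶠ j in atTop, ∀ k ∈ Finset.range n, μ (U k \ W k j) < (ε n / 2) / (n + 1) := by
    intro n
    rw [Filter.eventually_all_finset]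
    intro k _
    have hanti : Antitone fun j => U k \ W k j := fun i j hij => sdiff_subset_sdiff_right (hWmono k hij)
    have h0 : ⋂ j, (U k \ W k j) = ∅ := by
      rw [← sdiff_iUnion, hWU, sdiff_self]
    have ht := tendsto_measure_iInter_atTop (μ := μ)
      (fun j => ((hUo k).measurableSet.diff (C_meas _ (hWmem k j))).nullMeasurableSet) hanti
      ⟨0, measure_ne_top _ _⟩
    rw [h0, measure_empty] at ht
    exact ht.eventually (gt_mem_nhds (pos_iff_ne_zero.2 (hpos n)))
  obtain ⟨g, hg, hgP⟩ := extraction_forall_of_eventually hev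
  let D : ℕ → Set ℝ := fun n =>
    (⋃ k ∈ Finset.range n, (W k (g (n + 1)) \ W k (g n))) ∪ W n (g (n + 1))
  have hDmem : ∀ n, D n ∈ range C := fun n =>
    C_alg.union_mem (C_alg.biUnion_mem _ fun k _ => C_alg.sdiff_mem (hWmem _ _) (hWmem _ _))
      (hWmem _ _)
  have hWsub : ∀ k j, W k j ⊆ U k := fun k j => (subset_iUnion _ j).trans (hWU k).subset
  have hDlt : ∀ n, μ (D n) < ε n := by
    intro n
    have h1 : μ (D n) ≤ ∑ k ∈ Finset.range n, ((ε n / 2) / (n + 1)) + (ε n / 2) / (n + 1) := by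
      refine (measure_union_le _ _).trans (add_le_add ?_ ?_)
      · refine (measure_biUnion_finset_le _ _).trans (Finset.sum_le_sum fun k hk => ?_)
        exact (measure_mono (sdiff_subset_sdiff_left (hWsub _ _))).trans (hgP n k hk).le
      · exact (measure_mono (hWsub _ _)).trans (hUlt n).le
    have h2 : ∑ k ∈ Finset.range n, ((ε n / 2) / (n + 1)) + (ε n / 2) / (n + 1) ≤ ε n / 2 := by
      rw [Finset.sum_const, Finset.card_range, nsmul_eq_mul]
      calc (n : ENNReal) * ((ε n / 2) / (n + 1)) + (ε n / 2) / (n + 1)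
          = (n + 1) * ((ε n / 2) / (n + 1)) := by ring
        _ ≤ ε n / 2 := ENNReal.mul_div_le
    exact lt_of_le_of_lt (h1.trans h2) (ENNReal.half_lt_self (ε_ne n) (ε_top n))
  choose f hf using hDmem
  refine ⟨f, fun n => by rw [hf]; exact hDlt n, fun z hz k => ?_⟩
  have hzU : z ∈ ⋃ j, W k j := by rw [hWU]; exact hNU k hz
  obtain ⟨j, hj⟩ := mem_iUnion.1 hzU
  have hex : ∃ m, z ∈ W k (g m) := ⟨j, hWmono k (hg.id_le j) hj⟩
  classical
  rcases le_or_gt (Nat.find hex) (k + 1) with h | h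
  · refine ⟨k, le_rfl, ?_⟩
    rw [hf]
    exact Or.inr (hWmono k (hg.monotone h) (Nat.find_spec hex))
  · obtain ⟨n, hn⟩ : ∃ n, Nat.find hex = n + 1 := ⟨Nat.find hex - 1, by omega⟩
    refine ⟨n, by omega, ?_⟩
    rw [hf]
    refine Or.inl (mem_iUnion₂.2 ⟨k, Finset.mem_range.2 (by omega), ?_, ?_⟩)
    · rw [← hn]
      exact Nat.find_spec hex
    · exact Nat.find_min hex (by omega)

/-- The random real avoids all null sets. -/
theorem null_residual {N : Set ℝ} (hN : μ N = 0) : ∀ᶠ φ in residual Slalom, x φ ∉ N := by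
  classical
  obtain ⟨f, hf1, hf2⟩ := exists_code hN
  have h1 : IsOpen (⋃ p : {p : LOC // f ∈ p.F}, Nb p.1) := isOpen_iUnion fun p => isOpen_Nb _
  have h2 : Dense (⋃ p : {p : LOC // f ∈ p.F}, Nb p.1) := by
    rw [isTopologicalBasis_Nb.dense_iff]
    rintro _ ⟨p, rfl⟩ -
    obtain ⟨φ, hφ⟩ := Nb_nonempty p
    have hq := res_le hφ (max p.s.length (insert f p.F).card) (le_max_left _ _)
      (insert f p.F) (le_max_right _ _) (Finset.subset_insert _ _)
    obtain ⟨ψ, hψ⟩ := Nb_nonempty (res φ (max p.s.length (insert f p.F).card)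
      (insert f p.F) (le_max_right _ _))
    exact ⟨ψ, Nb_mono hq hψ, mem_iUnion.2 ⟨⟨_, Finset.mem_insert_self _ _⟩, hψ⟩⟩
  filter_upwards [residual_of_dense_open h1 h2] with φ hφ hN'
  obtain ⟨⟨p, hp⟩, hφp⟩ := mem_iUnion.1 hφ
  obtain ⟨n, hn, hz⟩ := hf2 _ hN' p.s.length
  refine (x_mem φ).2 (mem_iUnion.2 ⟨n, mem_iUnion₂.2 ⟨f n, hφp.2 f hp n hn, ?_⟩⟩)
  exact O_sub (hf1 n) hz

/-! ## The subforcing -/

/-- The Boolean value of the statement that the random real is in `B`. -/
def H (B : Set ℝ) : Set LOC := {p | ∀ᶠ φ in residual Slalom, φ ∈ Nb p → x φ ∈ B}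

theorem H_down {B : Set ℝ} {p q : LOC} (hq : q ≤ p) (hp : p ∈ H B) : q ∈ H B := by
  change ∀ᶠ φ in residual Slalom, φ ∈ Nb q → x φ ∈ B
  filter_upwards [hp] with φ h1 h2
  exact h1 (Nb_mono hq h2)

theorem not_ev (p : LOC) (h : ∀ᶠ φ in residual Slalom, φ ∉ Nb p) : False :=
  not_isMeagre_of_isOpen (isOpen_Nb p) (Nb_nonempty p) h

theorem perp_H {B : Set ℝ} (hB : MeasurableSet B) : Perp (H B) = H Bᶜ := by
  ext p
  constructor
  · intro hp
    by_contra hnot
    obtain ⟨V, hV, hVe⟩ := (measurable_x hB).residualEq_isOpen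
    have hne : (Nb p ∩ V).Nonempty := by
      by_contra hemp
      apply hnot
      filter_upwards [hVe.mem_iff] with φ hφ hφp hxB
      exact hemp ⟨φ, hφp, hφ.1 hxB⟩
    obtain ⟨φ, hφp, hφV⟩ := hne
    obtain ⟨q, hq, -, hqV⟩ := exists_le_subset hφp hV hφV
    refine hp q hq ?_
    filter_upwards [hVe.mem_iff] with ψ hψ hψq
    exact hψ.2 (hqV hψq)
  · intro hp q hq hqB
    apply not_ev q
    filter_upwards [hp, hqB] with φ h1 h2 hφ
    exact h1 (Nb_mono hq hφ) (h2 hφ)

theorem not_H_both {B : Set ℝ} {p : LOC} (h1 : p ∈ H B) (h2 : p ∈ H Bᶜ) : False := by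
  apply not_ev p
  filter_upwards [h1, h2] with φ h3 h4 hφ
  exact h4 hφ (h3 hφ)

theorem not_H_null {B : Set ℝ} {p : LOC} (h1 : p ∈ H B) (h2 : μ B = 0) : False := by
  apply not_ev p
  filter_upwards [h1, null_residual h2] with φ h3 h4 hφ
  exact h4 (h3 hφ)

/-- The random algebra as a subalgebra of the regular open algebra of localization forcing. -/
def Rand : Set (Set LOC) := {U | ∃ B, MeasurableSet B ∧ U = H B}

/-- Essential suprema. -/
theorem exists_ess_sup (S : Set (Set ℝ)) (hS : ∀ B ∈ S, MeasurableSet B) :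
    ∃ T ⊆ S, T.Countable ∧ ∀ B ∈ S, μ (B \ ⋃₀ T) = 0 := by
  let R : Set ENNReal := {r | ∃ T ⊆ S, T.Countable ∧ r = μ (⋃₀ T)}
  have hR : R.Nonempty := ⟨_, ∅, empty_subset _, countable_empty, rfl⟩
  obtain ⟨u, -, hu, huR⟩ := exists_seq_tendsto_sSup hR (OrderTop.bddAbove R)
  choose T hT1 hT2 hT3 using huR
  have hc : (⋃ n, T n).Countable := countable_iUnion hT2
  have hsub : (⋃ n, T n) ⊆ S := iUnion_subset hT1
  have hsup : sSup R ≤ μ (⋃₀ ⋃ n, T n) := by
    refine le_of_tendsto' hu fun n => ?_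
    rw [hT3]
    exact measure_mono (sUnion_subset_sUnion (subset_iUnion T n))
  refine ⟨_, hsub, hc, fun B hB => ?_⟩
  have h1 : μ (⋃₀ insert B (⋃ n, T n)) ≤ sSup R :=
    le_sSup ⟨_, insert_subset hB hsub, hc.insert B, rfl⟩
  have h2 : μ (B \ ⋃₀ ⋃ n, T n) + μ (⋃₀ ⋃ n, T n) ≤ 0 + μ (⋃₀ ⋃ n, T n) := by
    rw [zero_add, ← measure_union disjoint_sdiff_self_left
      (MeasurableSet.sUnion hc fun t ht => hS t (hsub ht)), sdiff_union_self]
    rw [sUnion_insert] at h1
    exact h1.trans hsup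
  exact le_antisymm (ENNReal.le_of_add_le_add_right (measure_ne_top _ _) h2) bot_le

theorem rand_complete : IsCompleteSubalgebra Rand where
  regularOpen := by
    rintro _ ⟨B, hB, rfl⟩
    rw [perp_H hB, perp_H hB.compl, compl_compl]
  compl_mem := by
    rintro _ ⟨B, hB, rfl⟩
    exact ⟨Bᶜ, hB.compl, perp_H hB⟩
  sSup_mem := by
    intro 𝒜 h𝒜
    obtain ⟨T, hTS, hTc, hT⟩ := exists_ess_sup {B | MeasurableSet B ∧ H B ∈ 𝒜}
      fun B hB => hB.1
    have hm : MeasurableSet (⋃₀ T) := MeasurableSet.sUnion hTc fun t ht => (hTS ht).1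
    have key : Perp (⋃₀ 𝒜) = H (⋃₀ T)ᶜ := by
      ext p
      constructor
      · intro hp
        have h1 : ∀ B ∈ T, p ∈ H Bᶜ := by
          intro B hB
          rw [← perp_H (hTS hB).1]
          exact fun q hq hqB => hp q hq ⟨_, (hTS hB).2, hqB⟩
        have h2 : ∀ᶠ φ in residual Slalom, ∀ B ∈ T, φ ∈ Nb p → x φ ∈ Bᶜ :=
          (eventually_countable_ball hTc).2 h1
        filter_upwards [h2] with φ h3 hφ
        rintro ⟨B, hB, hxB⟩
        exact h3 B hB hφ hxB
      · rintro hp q hq ⟨A, hA, hqA⟩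
        obtain ⟨B, hB, rfl⟩ := h𝒜 hA
        apply not_ev q
        filter_upwards [H_down hq hp, hqA, null_residual (hT B ⟨hB, hA⟩)] with φ h1 h2 h3 hφ
        exact h3 ⟨h2 hφ, h1 hφ⟩
    refine ⟨⋃₀ T, hm, ?_⟩
    rw [key, perp_H hm.compl, compl_compl]

theorem rand_nontrivial : IsNontrivial Rand := by
  intro U p
  by_contra hcon
  push Not at hcon
  have hdec : ∀ B : Set ℝ, MeasurableSet B → p ∈ H B ∨ p ∈ H Bᶜ := by
    intro B hB
    by_cases hU : H B ∈ U
    · left
      rw [← rand_complete.regularOpen (H B) ⟨B, hB, rfl⟩]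
      exact fun q hq hqB => (hcon q hq (H B) ⟨B, hB, rfl⟩).2 hqB hU
    · right
      rw [← perp_H hB]
      exact fun q hq hqB => hU ((hcon q hq (H B) ⟨B, hB, rfl⟩).1 hqB)
  have hsmall : ∀ n : ℕ, ∃ E : Set ℝ, MeasurableSet E ∧ p ∈ H E ∧
      μ E ≤ ENNReal.ofReal (1 / ((n : ℝ) + 1)) := by
    intro n
    by_contra hno
    push Not at hno
    have hn : (0 : ℝ) < (n : ℝ) + 1 := by positivity
    have h1 : ∀ i : ℕ, p ∈ H (Icc ((i : ℝ) / (n + 1)) ((i + 1) / (n + 1)))ᶜ := by
      intro i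
      refine (hdec _ measurableSet_Icc).resolve_left fun h => ?_
      refine absurd (hno _ measurableSet_Icc h) (not_lt.2 ?_)
      refine (Measure.restrict_apply_le _ _).trans ?_
      rw [Real.volume_Icc]
      apply ENNReal.ofReal_le_ofReal
      rw [← sub_div]
      simp
    apply not_ev p
    filter_upwards [eventually_countable_forall.2 h1] with φ h2 hφ
    have h3 := (x_mem φ).1
    refine h2 ⌊x φ * (n + 1)⌋₊ hφ ⟨?_, ?_⟩
    · rw [div_le_iff₀ hn]
      exact Nat.floor_le (mul_nonneg h3.1 hn.le)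
    · rw [le_div_iff₀ hn]
      exact (Nat.lt_floor_add_one _).le
  choose E hE1 hE2 hE3 using hsmall
  refine not_H_null (B := ⋂ n, E n) (p := p) ?_ ?_
  · change ∀ᶠ φ in residual Slalom, φ ∈ Nb p → x φ ∈ ⋂ n, E n
    filter_upwards [eventually_countable_forall.2 hE2] with φ h hφ
    exact mem_iInter.2 fun n => h n hφ
  · have h1 : ∀ n : ℕ, μ (⋂ n, E n) ≤ ENNReal.ofReal (1 / ((n : ℝ) + 1)) := fun n =>
      (measure_mono (iInter_subset _ n)).trans (hE3 n)
    have h2 : Tendsto (fun n : ℕ => ENNReal.ofReal (1 / ((n : ℝ) + 1))) atTop (𝓝 0) := by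
      rw [← ENNReal.ofReal_zero]
      exact ENNReal.tendsto_ofReal tendsto_one_div_add_atTop_nhds_zero_nat
    exact le_antisymm (ge_of_tendsto' h2 h1) bot_le

/-- The set of the points `z` such that `t` is an initial segment of the sequence of the truth values
of `z ∈ B 0`, `z ∈ B 1`, …. -/
def Y (B : ℕ → Set ℝ) (t : List Bool) : Set ℝ :=
  {z | ∀ (i : ℕ) (h : i < t.length), (z ∈ B i ↔ t[i] = true)}

theorem measurable_Y {B : ℕ → Set ℝ} (hB : ∀ n, MeasurableSet (B n)) (t : List Bool) :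
    MeasurableSet (Y B t) := by
  have : Y B t = ⋂ (i : ℕ) (h : i < t.length), {z | z ∈ B i ↔ t[i] = true} := by
    ext z
    simp [Y]
  rw [this]
  refine MeasurableSet.iInter fun i => MeasurableSet.iInter fun h => ?_
  by_cases ht : t[i] = true
  · have : {z | z ∈ B i ↔ t[i] = true} = B i := by
      ext z
      simp [ht]
    rw [this]
    exact hB i
  · have : {z | z ∈ B i ↔ t[i] = true} = (B i)ᶜ := by
      ext z
      simp [ht]
    rw [this]
    exact (hB i).compl

/-- Every finite sequence has an extension such that the measure is small. -/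
theorem exists_ext {B : ℕ → Set ℝ} (hB : ∀ n, MeasurableSet (B n)) (t : List Bool)
    {δ : ENNReal} (hδ : 0 < δ) : ∃ u, t <+: u ∧ μ (Y B u) < δ := by
  let u : ℕ → List Bool := fun j => t ++ (List.replicate j true ++ [false])
  have hlen : ∀ j, (u j).length = t.length + (j + 1) := fun j => by simp [u]
  have hdisj : ∀ i j, i < j → Disjoint (Y B (u i)) (Y B (u j)) := by
    intro i j hij
    rw [Set.disjoint_left]
    intro z h1 h2
    have h3 := h1 (t.length + i) (by rw [hlen]; omega)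
    have h4 := h2 (t.length + i) (by rw [hlen]; omega)
    rw [h3] at h4
    simp [u, hij] at h4
  have hd : Pairwise (Function.onFun Disjoint fun j => Y B (u j)) := by
    intro i j hij
    rcases lt_or_gt_of_ne hij with h | h
    · exact hdisj i j h
    · exact (hdisj j i h).symm
  have hsum : ∑' j, μ (Y B (u j)) ≠ ⊤ := by
    rw [← measure_iUnion hd fun j => measurable_Y hB _]
    exact measure_ne_top _ _
  have ht := ENNReal.tendsto_cofinite_zero_of_tsum_ne_top hsum
  obtain ⟨j, hj⟩ := (ht.eventually (gt_mem_nhds hδ)).exists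
  exact ⟨u j, List.prefix_append _ _, hj⟩

theorem rand_noCohen : AddsNoCohenReal Rand := by
  intro b hb p
  choose B hB hbB using hb
  have hD : ∀ k : ℕ, ∃ u : List Bool → List Bool, (∀ t, t <+: u t) ∧
      μ (⋃ t, Y B (u t)) ≤ ENNReal.ofReal (1 / ((k : ℝ) + 1)) := by
    intro k
    have hk : ENNReal.ofReal (1 / ((k : ℝ) + 1)) ≠ 0 := by
      rw [Ne, ENNReal.ofReal_eq_zero, not_le]
      positivity
    obtain ⟨δ, hδ1, hδ2⟩ := ENNReal.exists_pos_sum_of_countable hk (List Bool)
    choose u hu1 hu2 using fun t => exists_ext hB t (ENNReal.coe_pos.2 (hδ1 t))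
    refine ⟨u, hu1, (measure_iUnion_le _).trans (le_trans ?_ hδ2.le)⟩
    exact ENNReal.tsum_le_tsum fun t => (hu2 t).le
  choose u hu1 hu2 using hD
  let E : ℕ → Set ℝ := fun k => ⋃ t, Y B (u k t)
  have hE : ∀ k, MeasurableSet (E k) := fun k => MeasurableSet.iUnion fun t => measurable_Y hB _
  have hnull : μ (⋂ k, E k) = 0 := by
    have h2 : Tendsto (fun n : ℕ => ENNReal.ofReal (1 / ((n : ℝ) + 1))) atTop (𝓝 0) := by
      rw [← ENNReal.ofReal_zero]
      exact ENNReal.tendsto_ofReal tendsto_one_div_add_atTop_nhds_zero_nat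
    exact le_antisymm (ge_of_tendsto' h2 fun k =>
      (measure_mono (iInter_subset _ k)).trans (hu2 k)) bot_le
  obtain ⟨k, q, hq, hqE⟩ : ∃ k, ∃ q ≤ p, q ∈ H (E k)ᶜ := by
    by_contra hno
    push Not at hno
    refine not_H_null (p := p) (B := ⋂ k, E k) ?_ hnull
    have h1 : ∀ k, p ∈ H (E k) := by
      intro k
      rw [← compl_compl (E k), ← perp_H (hE k).compl]
      exact fun q hq => hno k q hq
    change ∀ᶠ φ in residual Slalom, φ ∈ Nb p → x φ ∈ ⋂ k, E k
    filter_upwards [eventually_countable_forall.2 h1] with φ h hφ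
    exact mem_iInter.2 fun k => h k hφ
  refine ⟨q, hq, Set.range (u k), fun t => ⟨_, ⟨t, rfl⟩, hu1 k t⟩, ?_⟩
  rintro _ ⟨t, rfl⟩ r hr hforce
  refine not_H_both (p := r) (B := E k) ?_ (H_down hr hqE)
  have h1 : ∀ i : Fin (u k t).length, ∀ᶠ φ in residual Slalom, φ ∈ Nb r →
      (x φ ∈ B i ↔ (u k t)[i] = true) := by
    intro i
    have := hforce i i.2
    by_cases ht : (u k t)[i] = true
    · rw [if_pos (by simpa using ht), hbB] at this
      filter_upwards [this] with φ h hφ
      exact iff_of_true (h hφ) ht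
    · rw [if_neg (by simpa using ht), hbB, perp_H (hB _)] at this
      filter_upwards [this] with φ h hφ
      exact iff_of_false (h hφ) ht
  change ∀ᶠ φ in residual Slalom, φ ∈ Nb r → x φ ∈ E k
  filter_upwards [eventually_countable_forall.2 h1] with φ h hφ
  exact mem_iUnion.2 ⟨t, fun i hi => h ⟨i, hi⟩ hφ⟩

/-- **Localization forcing has a nontrivial complete subforcing which adds no Cohen reals.** -/
theorem result : ∃ 𝔹 : Set (Set LOC), IsCompleteSubalgebra 𝔹 ∧ IsNontrivial 𝔹 ∧ AddsNoCohenReal 𝔹 :=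
  ⟨Rand, rand_complete, rand_nontrivial, rand_noCohen⟩

end Pool.Agent.Results.MP_339868_lc.RandomSubforcing
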